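import Pool.Agent.H53.NR.Targets

/-!
# (ITR) iteration over finitely many tuples of parts
-/

set_option autoImplicit false

namespace Pool.Agent.H56.NR

open Pool.Agent.H68.BP Pool.Agent.H58.SF Pool.Agent.H53.GC Pool.Agent.H53.NR

section

variable {Q P P' P'' X : Type} [LinearOrder Q]

theorem SysEmb.refl' (π : P → Q) (t : P → X) (d : P → P → X) : SysEmb π t d π t d id :=
  ⟨Function.injective_id, fun _ => rfl, fun _ => rfl, fun _ _ _ => rfl⟩

theorem SysEmb.comp' {π : P → Q} {t : P → X} {d : P → P → X} {π' : P' → Q} {t' : P' → X}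
    {d' : P' → P' → X} {π'' : P'' → Q} {t'' : P'' → X} {d'' : P'' → P'' → X} {φ : P → P'}
    {ψ : P' → P''} (h : SysEmb π t d π' t' d' φ) (h' : SysEmb π' t' d' π'' t'' d'' ψ) :
    SysEmb π t d π'' t'' d'' (fun x => ψ (φ x)) where
  inj := h'.inj.comp h.inj
  part x := by rw [h'.part, h.part]
  type x := by rw [h'.type, h.type]
  pair x y hxy := by
    rw [h'.pair (φ x) (φ y) (by rw [h.part, h.part]; exact hxy), h.pair x y hxy]

theorem SysCopy.map' {π : P → Q} {t : P → X} {d : P → P → X} {π' : P' → Q} {t' : P' → X}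
    {d' : P' → P' → X} {φ : P → P'} (h : SysEmb π t d π' t' d' φ) {a : ℕ} {α : Fin a → Q}
    (hα : StrictMono α) {tA : Fin a → X} {dA : Fin a → Fin a → X} {e : Fin a → P}
    (he : SysCopy π t d α tA dA e) : SysCopy π' t' d' α tA dA (fun i => φ (e i)) where
  part i := by rw [h.part, he.part]
  type i := by rw [h.type, he.type]
  pair i j hij := by
    rw [h.pair (e i) (e j) (by rw [he.part, he.part]; exact hα hij), he.pair i j hij]

end

theorem pf_ITR (h : T_STP) : T_ITR := by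
  intro V X Q κ _ _ c fr M a tA dA l
  induction l with
  | nil =>
    intro _ P _ π t d
    refine ⟨P, inferInstance, π, t, d, ?_, ?_⟩
    · intro χ
      refine ⟨id, SysEmb.refl' π t d, ?_⟩
      intro α hα
      exact absurd hα (List.not_mem_nil)
    · intro tQ dQ _ _ _ hOK
      exact hOK
  | cons α l ih =>
    intro hl P _ π t d
    have hα : StrictMono α := hl α List.mem_cons_self
    have hl' : ∀ β ∈ l, StrictMono β := fun β hβ => hl β (List.mem_cons_of_mem _ hβ)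
    obtain ⟨P₁, fin₁, π₁, t₁, d₁, hχ₁, hOK₁⟩ := ih hl' P π t d
    haveI := fin₁
    obtain ⟨P₂, fin₂, π₂, t₂, d₂, hχ₂, hOK₂⟩ := h V X Q P₁ κ c fr M π₁ t₁ d₁ a α tA dA hα
    refine ⟨P₂, fin₂, π₂, t₂, d₂, ?_, ?_⟩
    · intro χ
      obtain ⟨φ₁, hφ₁, hc₁⟩ := hχ₂ χ
      obtain ⟨φ₀, hφ₀, hc₀⟩ := hχ₁ (fun e => χ (fun i => φ₁ (e i)))
      refine ⟨fun x => φ₁ (φ₀ x), SysEmb.comp' hφ₀ hφ₁, ?_⟩
      intro β hβ e e' he he'
      rcases List.mem_cons.1 hβ with rfl | hβ
      · exact hc₁ _ _ (SysCopy.map' hφ₀ hα he) (SysCopy.map' hφ₀ hα he')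
      · exact hc₀ β hβ e e' he he'
    · intro tQ dQ h1 h2 h3 hOK
      have h4 : OrdOK c fr M tA dA := h3 (List.cons_ne_nil _ _)
      exact hOK₂ tQ dQ (h1 α List.mem_cons_self) (h2 α List.mem_cons_self) h4
        (hOK₁ tQ dQ (fun β hβ => h1 β (List.mem_cons_of_mem _ hβ))
          (fun β hβ => h2 β (List.mem_cons_of_mem _ hβ)) (fun _ => h4) hOK)

end Pool.Agent.H56.NR
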