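import Pool.Agent.H53.NR.Targets

/-!
# (RSS) the finite Ramsey theorem
-/

set_option autoImplicit false

namespace Pool.Agent.H56.NR

open Pool.Agent.H68.BP Pool.Agent.H58.SF Pool.Agent.H53.GC Pool.Agent.H53.NR

section

variable {κ : Type} [Finite κ] [Nonempty κ]

/-- the Ramsey property for tuples of length `a` -/
def RP (κ : Type) (a : ℕ) : Prop :=
  ∀ b : ℕ, ∃ p : ℕ, ∀ S : Finset ℕ, p ≤ S.card → ∀ χ : (Fin a → ℕ) → κ,
    ∃ T : Finset ℕ, T ⊆ S ∧ b ≤ T.card ∧ ∃ c : κ, ∀ f : Fin a → ℕ, StrictMono f →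
      (∀ i, f i ∈ T) → χ f = c

/-- the first element decides the colour -/
theorem rss_chain {a : ℕ} (h : RP κ a) (L : ℕ) :
    ∃ p : ℕ, ∀ S : Finset ℕ, p ≤ S.card → ∀ χ : (Fin (a + 1) → ℕ) → κ,
      ∃ (U : Finset ℕ) (col : ℕ → κ), U ⊆ S ∧ L ≤ U.card ∧ ∀ f : Fin (a + 1) → ℕ,
        StrictMono f → (∀ i, f i ∈ U) → χ f = col (f 0) := by
  classical
  induction L with
  | zero =>
    refine ⟨0, fun S _ χ => ⟨∅, fun _ => Classical.arbitrary κ, Finset.empty_subset _,
      Nat.zero_le _, ?_⟩⟩
    intro f _ hf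
    exact absurd (hf 0) (Finset.notMem_empty _)
  | succ L ih =>
    obtain ⟨q, hq⟩ := ih
    obtain ⟨p₁, hp₁⟩ := h q
    refine ⟨p₁ + 1, fun S hS χ => ?_⟩
    have hne : S.Nonempty := Finset.card_pos.1 (by omega)
    set x := S.min' hne with hx
    have hxS : x ∈ S := S.min'_mem hne
    have hc : (S.erase x).card = S.card - 1 := Finset.card_erase_of_mem hxS
    obtain ⟨T, hT, hqT, c, hTc⟩ := hp₁ (S.erase x) (by omega)
      (fun g => χ (Fin.cons (α := fun _ => ℕ) x g))
    obtain ⟨U, col, hU, hLU, hUc⟩ := hq T hqT χ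
    have hxU : x ∉ U := fun hh => Finset.notMem_erase x S (hT (hU hh))
    refine ⟨insert x U, Function.update col x c, ?_, ?_, ?_⟩
    · intro y hy
      rcases Finset.mem_insert.1 hy with rfl | hy
      · exact hxS
      · exact Finset.mem_of_mem_erase (hT (hU hy))
    · rw [Finset.card_insert_of_notMem hxU]
      omega
    · intro f hf hfU
      by_cases h0 : f 0 = x
      · rw [h0, Function.update_self]
        have hg : ∀ i : Fin a, f i.succ ∈ T := by
          intro i
          have h1 : f 0 < f i.succ := hf (Fin.succ_pos i)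
          rcases Finset.mem_insert.1 (hfU i.succ) with h2 | h2
          · omega
          · exact hU h2
        have h2 := hTc (fun i => f i.succ) (fun i j hij => hf (Fin.succ_lt_succ_iff.2 hij)) hg
        rw [← h2]
        congr 1
        funext i
        induction i using Fin.cases with
        | zero => exact h0
        | succ i => rfl
      · rw [Function.update_of_ne h0]
        have h0U : f 0 ∈ U := (Finset.mem_insert.1 (hfU 0)).resolve_left h0
        have h0S : f 0 ∈ S := Finset.mem_of_mem_erase (hT (hU h0U))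
        have hlt : x < f 0 := lt_of_le_of_ne (S.min'_le _ h0S) (Ne.symm h0)
        refine hUc f hf fun i => ?_
        refine (Finset.mem_insert.1 (hfU i)).resolve_left ?_
        have h3 : f 0 ≤ f i := hf.monotone (Fin.zero_le i)
        omega

theorem rss_all (κ : Type) [Finite κ] [Nonempty κ] (a : ℕ) : RP κ a := by
  classical
  haveI : Fintype κ := Fintype.ofFinite κ
  induction a with
  | zero =>
    intro b
    refine ⟨b, fun S hS χ => ⟨S, subset_rfl, hS, χ (fun i => i.elim0), ?_⟩⟩
    intro f _ _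
    congr 1
    funext i
    exact i.elim0
  | succ a ih =>
    intro b
    obtain ⟨p, hp⟩ := rss_chain ih (Fintype.card κ * b)
    refine ⟨p, fun S hS χ => ?_⟩
    obtain ⟨U, col, hU, hL, hUc⟩ := hp S hS χ
    have h1 : (Finset.univ : Finset κ).card * b ≤ U.card := by
      rw [Finset.card_univ]
      exact hL
    obtain ⟨c, -, hc⟩ := Finset.exists_le_card_fiber_of_mul_le_card_of_maps_to
      (f := col) (s := U) (t := (Finset.univ : Finset κ))
      (fun y _ => Finset.mem_univ _) Finset.univ_nonempty h1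
    refine ⟨U.filter (fun y => col y = c), (Finset.filter_subset _ _).trans hU, hc, c, ?_⟩
    intro f hf hfT
    rw [hUc f hf fun i => (Finset.mem_filter.1 (hfT i)).1]
    exact (Finset.mem_filter.1 (hfT 0)).2

end

theorem pf_RSS : T_RSS := by
  classical
  intro a b κ _
  rcases isEmpty_or_nonempty κ with hκ | hκ
  · exact ⟨1, fun χ => (hκ.false (χ fun _ => 0)).elim⟩
  · obtain ⟨p, hp⟩ := rss_all κ a b
    refine ⟨p, fun χ => ?_⟩
    obtain ⟨T, hT, hbT, c, hc⟩ := hp (Finset.range p) (by simp)
      (fun f => if h : ∀ i, f i < p then χ (fun i => ⟨f i, h i⟩) else Classical.arbitrary κ)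
    have hβ : ∀ i, T.orderEmbOfCardLe hbT i < p := fun i =>
      Finset.mem_range.1 (hT (Finset.orderEmbOfCardLe_mem T hbT i))
    have key : ∀ f : Fin a → Fin b, StrictMono f →
        χ (fun i => (⟨T.orderEmbOfCardLe hbT (f i), hβ (f i)⟩ : Fin p)) = c := by
      intro f hf
      have h1 := hc (fun i => T.orderEmbOfCardLe hbT (f i))
        (fun i j hij => (T.orderEmbOfCardLe hbT).strictMono (hf hij))
        (fun i => Finset.orderEmbOfCardLe_mem T hbT (f i))
      have h2 : ∀ i, T.orderEmbOfCardLe hbT (f i) < p := fun i => hβ (f i)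
      rw [dif_pos h2] at h1
      exact h1
    refine ⟨fun i => ⟨T.orderEmbOfCardLe hbT i, hβ i⟩, ?_, ?_⟩
    · intro i j hij
      exact (T.orderEmbOfCardLe hbT).strictMono hij
    · intro f g hf hg
      rw [key f hf, key g hg]

end Pool.Agent.H56.NR
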